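import Pool.Agent.Lib.MP_9a7843_ag_A.Final

/-!
# MP_9a7843_ag: the number of Manin components is not uniform

For every algebraically closed field `k` of characteristic `0` there is a smooth projective weak
Fano variety `X` over `k` for which no pair `(τ, n)` as in the question exists.

The variety is `X = P(S^3 Π)` over the Grassmannian `Gr(2, 10)`, `Π` the tautological plane: pairs
of a line in `P^9` and a divisor of degree `3` on it, embedded in `P(S^3 V ⊗ Λ^2 V)`; it is Fano of
dimension `19` with Picard group `ℤ ξ ⊕ ℤ H`, `-K_X = 4 (ξ + H)`.  Classes of curves are pairs
`(e, h) = (ξ · α, H · α)`, and `Nef_1(X) = {h ≥ 0, 4 e ≥ 6 h}`.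
* For `e ≥ 3 h` the space `Mor(P^1, X, α)` has at most one component.
* For `3 h / 2 < e < 2 h`, `h` even, it has at least two Manin components: one whose general member
  has a balanced plane bundle, and one whose general member is `F = u (a_0 u^2 + 3 v^2)`,
  `deg u = 2 h - e`, `deg v = e - h`, `deg a_0 = 4 e - 6 h` (the marked root `u` gives a lift to
  the triple cover `T → X`, an `a`-cover which is not breaking).
-/

namespace Pool.Agent.Results.MP_9a7843_ag.ManinComponents

open Pool.Agent.MP9a7843

universe u

/-- For every algebraically closed field `k` of characteristic `0` some smooth projective weak Fano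
variety over `k` has no uniform number of Manin components. -/
theorem result (k : Type u) [Field k] [IsAlgClosed k] [CharZero k] :
    ∃ X : ProjVar k, X.Smooth ∧ X.WeakFano ∧ ¬ X.HasUniformCount :=
  MP9a7843.main k

end Pool.Agent.Results.MP_9a7843_ag.ManinComponents
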